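import Pool.Agent.H97.SM.Uni
import Pool.Agent.H92.SR.Tim

/-!
# The running time outside the bad set

An instance over the radicands `a 0, …, a (n-1)` is a list `p` of pairs (index, multiplier); the pair `(i, y)` stands for the
radicand `y ^ 2 * a i`.
-/

set_option autoImplicit false

namespace Pool.Agent.H97.SM

open Pool.Agent.H92.SR

/-- the total multiplier of the index `i` -/
def tm {n : ℕ} (p : List (Fin n × ℕ)) (i : Fin n) : ℕ :=
  ((p.filter fun z => z.1 = i).map Prod.snd).sum

theorem tm_cons {n : ℕ} (z : Fin n × ℕ) (p : List (Fin n × ℕ)) (i : Fin n) :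
    tm (z :: p) i = (if z.1 = i then z.2 else 0) + tm p i := by
  unfold tm
  by_cases h : z.1 = i
  · rw [List.filter_cons_of_pos (by simpa using h), if_pos h]
    simp
  · rw [List.filter_cons_of_neg (by simpa using h), if_neg h, Nat.zero_add]

theorem le_tm {n : ℕ} {p : List (Fin n × ℕ)} {z : Fin n × ℕ} (hz : z ∈ p) : z.2 ≤ tm p z.1 := by
  induction p with
  | nil => simp at hz
  | cons y p ih =>
    rw [tm_cons]
    rcases List.mem_cons.1 hz with h | h
    · rw [h, if_pos rfl]
      omega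
    · have := ih h
      omega

theorem sqrt_sq_mul (y a : ℕ) : √((y ^ 2 * a : ℕ) : ℝ) = (y : ℝ) * √(a : ℝ) := by
  push_cast
  rw [Real.sqrt_mul (by positivity), Real.sqrt_sq (Nat.cast_nonneg _)]

theorem EE_map {n : ℕ} (p : List (Fin n × ℕ)) (a : Fin n → ℕ) (k : ℕ) :
    EE (p.map fun z => z.2 ^ 2 * a z.1) k = EE (List.ofFn fun i => tm p i ^ 2 * a i) k := by
  rw [ee_of]
  unfold EE
  congr 1
  simp only [sqrt_sq_mul]
  rw [List.map_map]
  induction p with
  | nil => simp [tm]
  | cons z p ih =>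
    rw [List.map_cons, List.sum_cons, ih]
    have h1 : ∀ i : Fin n, ((tm (z :: p) i : ℕ) : ℝ) * √(a i : ℝ) =
        (if z.1 = i then (z.2 : ℝ) * √(a i : ℝ) else 0) + (tm p i : ℝ) * √(a i : ℝ) := by
      intro i
      rw [tm_cons]
      push_cast
      split_ifs
      · ring
      · ring
    rw [Finset.sum_congr rfl fun i _ => h1 i, Finset.sum_add_distrib, Finset.sum_ite_eq,
      if_pos (Finset.mem_univ _)]
    congr 1
    exact sqrt_sq_mul _ _

theorem EE_filter (L : List ℕ) (k : ℕ) : EE (L.filter fun a => a ≠ 0) k = EE L k := by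
  unfold EE
  congr 1
  induction L with
  | nil => rfl
  | cons a L ih =>
    by_cases h : a = 0
    · rw [List.filter_cons_of_neg (by simpa using h), ih, h]
      simp
    · rw [List.filter_cons_of_pos (by simpa using h)]
      simp only [List.map_cons, List.sum_cons]
      rw [ih]

/-- a list with few nonzero entries -/
theorem few {L : List ℕ} {k B m : ℕ} (hsq : ¬ ∀ a ∈ L, IsSquare a)
    (hB : (L.map fun a : ℕ => √(a : ℝ)).sum + k ≤ 2 ^ B) (hm : (L.filter fun a => a ≠ 0).length ≤ m) :
    1 ≤ |EE L k| * 2 ^ (B * (2 ^ (m + 1) - 1)) := by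
  have hsq' : ¬ ∀ a ∈ L.filter fun a => a ≠ 0, IsSquare a := by
    intro h
    apply hsq
    intro a ha
    by_cases h0 : a = 0
    · rw [h0]
      exact ⟨0, rfl⟩
    · exact h a (List.mem_filter.2 ⟨ha, by simpa using h0⟩)
  have e := EE_filter L k
  have hB' : ((L.filter fun a => a ≠ 0).map fun a : ℕ => √(a : ℝ)).sum + k ≤ 2 ^ B := by
    unfold EE at e
    linarith
  have h1 := lsp1 hsq' (one_le_pow₀ (by norm_num) : (1 : ℝ) ≤ 2 ^ B) hB'
  rw [e, ← pow_mul] at h1
  refine h1.trans (mul_le_mul_of_nonneg_left ?_ (abs_nonneg _))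
  refine pow_le_pow_right₀ (by norm_num) (Nat.mul_le_mul_left _ ?_)
  exact Nat.sub_le_sub_right (Nat.pow_le_pow_right (by norm_num) (by omega)) 1

theorem det {n r b u : ℕ} {A W a : Fin n → ℕ} (ha : a ∈ box A W)
    (hb : ∀ i, A i + W i ≤ 2 ^ b) {p : List (Fin n × ℕ)} (hp : ∀ i, tm p i ≤ 2 ^ r) (k : ℕ)
    (hgood : 4 * u ≤ (Finset.univ.filter fun i => tm p i ≠ 0).card →
      k < 2 ^ (n + r + b) →
      1 ≤ |EE (List.ofFn fun i => tm p i ^ 2 * a i) k| *
        2 ^ (1 + (n + r + b + 1) * 4 ^ (4 * u)))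
    {T : List ℕ → ℕ → ℕ} {q : Polynomial ℕ}
    (hT : ∀ L k x, 1 ≤ |EE L k| * 2 ^ x → T L k ≤ q.eval (bsz L k + x))
    (hT' : ∀ L k, (∀ a ∈ L, IsSquare a) → T L k ≤ q.eval (bsz L k)) :
    T (p.map fun z => z.2 ^ 2 * a z.1) k ≤
      q.eval (bsz (p.map fun z => z.2 ^ 2 * a z.1) k +
        (1 + (n + r + b + 1) * 4 ^ (4 * u + 1))) := by
  have hmono : ∀ y ≤ 1 + (n + r + b + 1) * 4 ^ (4 * u + 1),
      q.eval (bsz (p.map fun z => z.2 ^ 2 * a z.1) k + y) ≤
      q.eval (bsz (p.map fun z => z.2 ^ 2 * a z.1) k +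
        (1 + (n + r + b + 1) * 4 ^ (4 * u + 1))) :=
    fun y hy => poly_mono q (by omega)
  have haA : ∀ i, 1 ≤ a i ∧ a i ≤ 2 ^ b := by
    intro i
    have h1 := Fintype.mem_piFinset.1 ha i
    rw [Finset.mem_Ioc] at h1
    have h2 := hb i
    omega
  have hs := sum_le (n := n) hp fun i => (haA i).2
  have hsum : ((p.map fun z => z.2 ^ 2 * a z.1).map fun a : ℕ => √(a : ℝ)).sum + 1 ≤
      2 ^ (n + r + b) := by
    have e := EE_map p a 0
    rw [ee_of] at e
    unfold EE at e
    linarith
  by_cases hk : k < 2 ^ (n + r + b)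
  · by_cases hc : 4 * u ≤ (Finset.univ.filter fun i => tm p i ≠ 0).card
    · have h1 := hgood hc hk
      rw [← EE_map] at h1
      refine (hT _ _ _ h1).trans (hmono _ ?_)
      have : (n + r + b + 1) * 4 ^ (4 * u) ≤ (n + r + b + 1) * 4 ^ (4 * u + 1) :=
        Nat.mul_le_mul_left _ (Nat.pow_le_pow_right (by norm_num) (by omega))
      omega
    · by_cases hsq : ∀ y ∈ p.map fun z => z.2 ^ 2 * a z.1, IsSquare y
      · exact (hT' _ _ hsq).trans (hmono 0 (Nat.zero_le _))
      · have hsq' : ¬ ∀ y ∈ List.ofFn fun i => tm p i ^ 2 * a i, IsSquare y := by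
          intro h
          apply hsq
          intro y hy
          rw [List.mem_map] at hy
          obtain ⟨z, hz, rfl⟩ := hy
          rcases Nat.eq_zero_or_pos z.2 with h0 | h0
          · exact ⟨0, by rw [h0]; ring⟩
          · obtain ⟨v, hv⟩ := h (tm p z.1 ^ 2 * a z.1) (List.mem_ofFn.2 ⟨z.1, rfl⟩)
            obtain ⟨c, hc⟩ := sq_cls (h0.trans_le (le_tm hz)) squarefree_one
              (show tm p z.1 ^ 2 * a z.1 = v ^ 2 * 1 by rw [hv]; ring)
            exact ⟨z.2 * c, by rw [hc]; ring⟩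
        have hlen : ((List.ofFn fun i => tm p i ^ 2 * a i).filter fun a => a ≠ 0).length ≤
            4 * u := by
          rw [List.ofFn_eq_map, List.filter_map, List.length_map]
          have h1 : ((List.finRange n).filter
              ((fun a : ℕ => decide (a ≠ 0)) ∘ fun i => tm p i ^ 2 * a i)).Nodup :=
            (List.nodup_finRange n).filter _
          rw [← List.toFinset_card_of_nodup h1]
          refine le_trans (Finset.card_le_card ?_) (not_le.1 hc).le
          intro i hi
          rw [List.mem_toFinset, List.mem_filter] at hi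
          rw [Finset.mem_filter]
          refine ⟨Finset.mem_univ i, ?_⟩
          intro h0
          have h2 := hi.2
          simp [h0] at h2
        have hB : ((List.ofFn fun i => tm p i ^ 2 * a i).map fun a : ℕ => √(a : ℝ)).sum + (k : ℝ) ≤
            2 ^ (n + r + b + 1) := by
          have h1 : (k : ℝ) ≤ 2 ^ (n + r + b) := by exact_mod_cast hk.le
          have e := ee_of (fun i => tm p i ^ 2 * a i) 0
          unfold EE at e
          rw [pow_succ]
          linarith
        have h3 := few hsq' hB hlen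
        rw [← EE_map] at h3
        refine (hT _ _ _ h3).trans (hmono _ ?_)
        have h1 : 2 ^ (4 * u + 1) - 1 ≤ 4 ^ (4 * u + 1) :=
          (Nat.sub_le _ _).trans (Nat.pow_le_pow_left (by norm_num) _)
        have := Nat.mul_le_mul_left (n + r + b + 1) h1
        omega
  · have h1 : 1 ≤ |EE (p.map fun z => z.2 ^ 2 * a z.1) k| * 2 ^ 0 := by
      have h2 : (2 : ℝ) ^ (n + r + b) ≤ k := by exact_mod_cast not_lt.1 hk
      rw [pow_zero, mul_one]
      refine le_trans ?_ (neg_le_abs _)
      unfold EE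
      linarith
    exact (hT _ _ _ h1).trans (hmono 0 (Nat.zero_le _))

end Pool.Agent.H97.SM
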