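import Pool.Agent.H92.SR.Fib
import Pool.Agent.H92.SR.Box

/-!
# The fibres with multipliers

The statements `fib` and `box_cnt` of `Pool/Agent/H92/SR` for the radicands `x i ^ 2 * a i` with fixed multipliers `x i`.
-/

set_option autoImplicit false

namespace Pool.Agent.H97.SM

open Pool.Agent.H92.SR

theorem sq_cls {a d x y : ℕ} (hx : 1 ≤ x) (hd : Squarefree d) (h : x ^ 2 * a = y ^ 2 * d) :
    ∃ c : ℕ, a = c ^ 2 * d := by
  obtain ⟨x1, y1, hco, hx1, hy1⟩ := Nat.exists_coprime x y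
  have hg : 0 < Nat.gcd x y := Nat.gcd_pos_of_pos_left _ hx
  have h1 : x1 ^ 2 * a = y1 ^ 2 * d := by
    have h0 : Nat.gcd x y ^ 2 * (x1 ^ 2 * a) = Nat.gcd x y ^ 2 * (y1 ^ 2 * d) := by
      calc Nat.gcd x y ^ 2 * (x1 ^ 2 * a) = (x1 * Nat.gcd x y) ^ 2 * a := by ring
        _ = x ^ 2 * a := by rw [← hx1]
        _ = y ^ 2 * d := h
        _ = (y1 * Nat.gcd x y) ^ 2 * d := by rw [← hy1]
        _ = Nat.gcd x y ^ 2 * (y1 ^ 2 * d) := by ring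
    exact Nat.eq_of_mul_eq_mul_left (by positivity) h0
  have h2 : x1 ^ 2 ∣ d := by
    have h3 : x1 ^ 2 ∣ y1 ^ 2 * d := ⟨a, h1.symm⟩
    exact (Nat.Coprime.pow 2 2 hco).dvd_of_dvd_mul_left h3
  have h3 : IsUnit x1 := hd x1 (by rw [← pow_two]; exact h2)
  rw [Nat.isUnit_iff] at h3
  refine ⟨y1, ?_⟩
  rw [h3, one_pow, one_mul] at h1
  exact h1

private theorem sfib_eq {J : Type} [Fintype J] {m : ℕ} (hJ : Fintype.card J = m) {a a' : J → ℕ}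
    (F : ℝ) {b : ℕ} (hb : ∑ j, √(a j : ℝ) + ∑ j, √(a' j : ℝ) ≤ 2 ^ b)
    (h : |∑ j, √(a j : ℝ) + F| * 2 ^ (1 + b * 4 ^ m) < 1)
    (h' : |∑ j, √(a' j : ℝ) + F| * 2 ^ (1 + b * 4 ^ m) < 1) :
    ∑ j, √(a j : ℝ) = ∑ j, √(a' j : ℝ) := by
  by_contra hne
  have h1 := cls_sep hne (one_le_pow₀ (by norm_num : (1 : ℝ) ≤ 2) : (1 : ℝ) ≤ 2 ^ b) hb
  rw [hJ, ← pow_mul] at h1
  have h2 : |∑ j, √(a j : ℝ) - ∑ j, √(a' j : ℝ)| ≤
      |∑ j, √(a j : ℝ) + F| + |∑ j, √(a' j : ℝ) + F| := by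
    have h3 : ∑ j, √(a j : ℝ) - ∑ j, √(a' j : ℝ) =
        (∑ j, √(a j : ℝ) + F) - (∑ j, √(a' j : ℝ) + F) := by ring
    rw [h3]
    exact abs_sub _ _
  have h3 : (2 : ℝ) ^ (b * (2 ^ (2 * m) - 1)) ≤ 2 ^ (b * 4 ^ m) := by
    refine pow_le_pow_right₀ (by norm_num) (Nat.mul_le_mul_left b ?_)
    have : 4 ^ m = 2 ^ (2 * m) := by rw [pow_mul]; norm_num
    rw [this]
    exact Nat.sub_le _ _
  have h4 : (2 : ℝ) ^ (1 + b * 4 ^ m) = 2 * 2 ^ (b * 4 ^ m) := by rw [pow_add, pow_one]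
  rw [h4] at h h'
  have h5 : (0 : ℝ) < 2 ^ (b * 4 ^ m) := by positivity
  have h6 := mul_le_mul_of_nonneg_left h3 (abs_nonneg (∑ j, √(a j : ℝ) - ∑ j, √(a' j : ℝ)))
  have h7 := mul_le_mul_of_nonneg_right h2 h5.le
  nlinarith

open Classical in
theorem sfib {J : Type} [Fintype J] {m : ℕ} (hJ : Fintype.card J = m) (hm : 1 ≤ m)
    {A W x : J → ℕ} (hx : ∀ j, 1 ≤ x j) (hW : ∀ j, m ≤ W j) (F : ℝ) {b : ℕ}
    (hb : ∑ j, 2 * √((x j ^ 2 * (A j + W j) : ℕ) : ℝ) ≤ 2 ^ b) :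
    (((Fintype.piFinset fun j => Finset.Ioc (A j) (A j + W j)).filter fun a =>
      |∑ j, √((x j ^ 2 * a j : ℕ) : ℝ) + F| * 2 ^ (1 + b * 4 ^ m) < 1).card : ℝ) ≤
      ∏ j, 4 * √((m : ℝ) * W j) := by
  set T := (Fintype.piFinset fun j => Finset.Ioc (A j) (A j + W j)).filter fun a =>
      |∑ j, √((x j ^ 2 * a j : ℕ) : ℝ) + F| * 2 ^ (1 + b * 4 ^ m) < 1 with hT
  rcases T.eq_empty_or_nonempty with h0 | ⟨a', ha'⟩
  · rw [h0]
    simp only [Finset.card_empty, Nat.cast_zero]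
    exact Finset.prod_nonneg fun j _ => by positivity
  set D : Finset ℕ := Finset.univ.image (fun j => sf (x j ^ 2 * a' j)) with hD
  have hD0 : 0 ∉ D := by
    intro h
    rw [hD, Finset.mem_image] at h
    obtain ⟨j, _, hj⟩ := h
    have := (sf_spec (x j ^ 2 * a' j)).2
    rw [hj] at this
    exact not_squarefree_zero this
  have hDm : D.card ≤ m := by
    rw [← hJ]
    exact Finset.card_image_le
  have hmem : ∀ a ∈ T, (∀ j, A j < a j ∧ a j ≤ A j + W j) ∧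
      |∑ j, √((x j ^ 2 * a j : ℕ) : ℝ) + F| * 2 ^ (1 + b * 4 ^ m) < 1 := by
    intro a ha
    rw [hT, Finset.mem_filter, Fintype.mem_piFinset] at ha
    exact ⟨fun j => Finset.mem_Ioc.1 (ha.1 j), ha.2⟩
  have hsum : ∀ a ∈ T, ∑ j, √((x j ^ 2 * a j : ℕ) : ℝ) ≤
      ∑ j, √((x j ^ 2 * (A j + W j) : ℕ) : ℝ) := by
    intro a ha
    refine Finset.sum_le_sum fun j _ => Real.sqrt_le_sqrt ?_
    exact_mod_cast Nat.mul_le_mul_left _ ((hmem a ha).1 j).2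
  have hpos : ∀ a ∈ T, ∀ j, 1 ≤ x j ^ 2 * a j := by
    intro a ha j
    have h1 := ((hmem a ha).1 j).1
    exact Nat.mul_pos (pow_pos (hx j) 2) (by omega)
  have hsub : T ⊆ Fintype.piFinset fun j =>
      (Finset.Ioc (A j) (A j + W j)).filter fun y => ∃ d ∈ D, ∃ c : ℕ, y = c ^ 2 * d := by
    intro a ha
    rw [Fintype.mem_piFinset]
    have h1 := hmem a ha
    have h2 := hmem a' ha'
    have heq := sfib_eq hJ F (b := b) (a := fun j => x j ^ 2 * a j)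
      (a' := fun j => x j ^ 2 * a' j) (by
      refine le_trans (add_le_add (hsum a ha) (hsum a' ha')) (le_trans (le_of_eq ?_) hb)
      rw [← Finset.sum_add_distrib]
      refine Finset.sum_congr rfl fun j _ => ?_
      ring) h1.2 h2.2
    intro j
    rw [Finset.mem_filter, Finset.mem_Ioc]
    refine ⟨h1.1 j, ?_⟩
    obtain ⟨i, hi⟩ := cls_eq (a := fun j => x j ^ 2 * a j) (a' := fun j => x j ^ 2 * a' j)
      (hpos a ha) (hpos a' ha') heq j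
    refine ⟨sf (x j ^ 2 * a j), ?_, ?_⟩
    · rw [hi]
      exact Finset.mem_image_of_mem _ (Finset.mem_univ i)
    · exact sq_cls (hx j) (sf_spec (x j ^ 2 * a j)).2 (sf_spec (x j ^ 2 * a j)).1.symm
  have h1 : (T.card : ℝ) ≤ ∏ j, ((((Finset.Ioc (A j) (A j + W j)).filter
      fun y => ∃ d ∈ D, ∃ c : ℕ, y = c ^ 2 * d).card : ℕ) : ℝ) := by
    have h2 := Finset.card_le_card hsub
    rw [Fintype.card_piFinset] at h2
    exact_mod_cast h2
  refine h1.trans (Finset.prod_le_prod (fun j _ => Nat.cast_nonneg _) fun j _ => ?_)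
  exact cnt (A j) hm (hW j) hD0 hDm

open Classical in
theorem sbox {n m : ℕ} {A W x : Fin n → ℕ} {J : Finset (Fin n)} (hJ : J.card = m) (hm : 1 ≤ m)
    (hx : ∀ i ∈ J, 1 ≤ x i) (hW : ∀ i ∈ J, m ≤ W i) (k : ℕ) {b : ℕ}
    (hb : ∑ i, 2 * √((x i ^ 2 * (A i + W i) : ℕ) : ℝ) ≤ 2 ^ b) :
    (((box A W).filter fun a =>
      |EE (List.ofFn fun i => x i ^ 2 * a i) k| * 2 ^ (1 + b * 4 ^ m) < 1).card : ℝ) ≤
      (∏ i ∈ Jᶜ, (W i : ℝ)) * ∏ i ∈ J, 4 * √((m : ℝ) * W i) := by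
  obtain ⟨B, hB⟩ : ∃ B, B = (box A W).filter fun a =>
      |EE (List.ofFn fun i => x i ^ 2 * a i) k| * 2 ^ (1 + b * 4 ^ m) < 1 := ⟨_, rfl⟩
  rw [← hB]
  obtain ⟨T, hT⟩ : ∃ T : Finset ({i // i ∈ Jᶜ} → ℕ), T =
      Fintype.piFinset fun i => Finset.Ioc (A i.1) (A i.1 + W i.1) := ⟨_, rfl⟩
  have hTc : (T.card : ℝ) = ∏ i ∈ Jᶜ, (W i : ℝ) := by
    rw [hT, Fintype.card_piFinset]
    push_cast
    rw [← Finset.prod_coe_sort Jᶜ (fun i => (W i : ℝ))]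
    refine Finset.prod_congr rfl fun i _ => ?_
    rw [Nat.card_Ioc]
    congr 1
    omega
  have hmaps : ∀ a ∈ B, (fun i : {i // i ∈ Jᶜ} => a i.1) ∈ T := by
    intro a ha
    rw [hB, Finset.mem_filter] at ha
    have h1 := ha.1
    unfold box at h1
    rw [Fintype.mem_piFinset] at h1
    rw [hT, Fintype.mem_piFinset]
    exact fun i => h1 i.1
  have hb' : ∑ j : {j // j ∈ J}, 2 * √((x j.1 ^ 2 * (A j.1 + W j.1) : ℕ) : ℝ) ≤ 2 ^ b := by
    rw [Finset.sum_coe_sort J (fun i => 2 * √((x i ^ 2 * (A i + W i) : ℕ) : ℝ))]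
    refine le_trans ?_ hb
    exact Finset.sum_le_sum_of_subset_of_nonneg (Finset.subset_univ J)
      fun i _ _ => by positivity
  have hfib : ∀ y ∈ T, ((B.filter fun a => (fun i : {i // i ∈ Jᶜ} => a i.1) = y).card : ℝ) ≤
      ∏ i ∈ J, 4 * √((m : ℝ) * W i) := by
    intro y _
    have h1 := sfib (J := {j // j ∈ J}) (m := m) (by rw [Fintype.card_coe, hJ]) hm
      (A := fun j => A j.1) (W := fun j => W j.1) (x := fun j => x j.1)
      (fun j => hx j.1 j.2) (fun j => hW j.1 j.2)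
      (∑ i : {i // i ∈ Jᶜ}, √((x i.1 ^ 2 * y i : ℕ) : ℝ) - k) hb'
    rw [Finset.prod_coe_sort J (fun i => 4 * √((m : ℝ) * W i))] at h1
    refine le_trans ?_ h1
    rw [Nat.cast_le]
    refine Finset.card_le_card_of_injOn (fun a => fun j : {j // j ∈ J} => a j.1) ?_ ?_
    · intro a ha
      rw [Finset.mem_coe, Finset.mem_filter, hB, Finset.mem_filter] at ha
      obtain ⟨⟨ha1, ha2⟩, ha3⟩ := ha
      unfold box at ha1
      rw [Fintype.mem_piFinset] at ha1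
      rw [Finset.mem_coe]
      simp only [Finset.mem_filter, Fintype.mem_piFinset]
      refine ⟨fun j => ha1 j.1, ?_⟩
      have h2 : ∑ j : {j // j ∈ J}, √((x j.1 ^ 2 * a j.1 : ℕ) : ℝ) +
          (∑ i : {i // i ∈ Jᶜ}, √((x i.1 ^ 2 * y i : ℕ) : ℝ) - k) =
          EE (List.ofFn fun i => x i ^ 2 * a i) k := by
        rw [ee_of, ← ha3, Finset.sum_coe_sort J (fun i => √((x i ^ 2 * a i : ℕ) : ℝ)),
          Finset.sum_coe_sort Jᶜ (fun i => √((x i ^ 2 * a i : ℕ) : ℝ)),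
          ← Finset.sum_add_sum_compl J (fun i => √((x i ^ 2 * a i : ℕ) : ℝ))]
        ring
      rw [h2]
      exact ha2
    · intro a ha a' ha' h
      rw [Finset.mem_coe, Finset.mem_filter] at ha ha'
      funext i
      by_cases hi : i ∈ J
      · exact congrFun h ⟨i, hi⟩
      · have h2 := congrFun (ha.2.trans ha'.2.symm) ⟨i, Finset.mem_compl.2 hi⟩
        exact h2
  have hsum : B.card = ∑ y ∈ T, (B.filter fun a => (fun i : {i // i ∈ Jᶜ} => a i.1) = y).card :=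
    Finset.card_eq_sum_card_fiberwise hmaps
  rw [hsum]
  push_cast
  refine (Finset.sum_le_sum hfib).trans (le_of_eq ?_)
  rw [Finset.sum_const, nsmul_eq_mul, hTc]

open Classical in
/-- `4 u` coordinates with noise of `w` bits each: the fraction of the small values is at most `2 ^ (- w u)` -/
theorem sprob {n u w : ℕ} {A W x : Fin n → ℕ} {J : Finset (Fin n)} (hJ : J.card = 4 * u)
    (hu : 1 ≤ u) (huw : (64 * u) ^ 2 ≤ 2 ^ w) (hx : ∀ i ∈ J, 1 ≤ x i) (hW : ∀ i, 2 ^ w ≤ W i)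
    (k : ℕ) {b : ℕ} (hb : ∑ i, 2 * √((x i ^ 2 * (A i + W i) : ℕ) : ℝ) ≤ 2 ^ b) :
    ((box A W).filter fun a =>
      |EE (List.ofFn fun i => x i ^ 2 * a i) k| * 2 ^ (1 + b * 4 ^ (4 * u)) < 1).card *
      2 ^ (w * u) ≤ ∏ i, W i := by
  have hcnt := sbox (A := A) (W := W) (x := x) hJ (by omega) hx (fun i _ => by
    have h1 := hW i
    have h2 : 4 * u ≤ (64 * u) ^ 2 := by nlinarith
    omega) k hb
  have hθ0 : (0 : ℝ) ≤ √(√(2 ^ w)) := Real.sqrt_nonneg _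
  have hθ2 : √(√(2 ^ w : ℝ)) ^ 2 = √(2 ^ w) := Real.sq_sqrt (Real.sqrt_nonneg _)
  have hθ4 : √(√(2 ^ w : ℝ)) ^ 4 = 2 ^ w := by
    calc √(√(2 ^ w : ℝ)) ^ 4 = (√(√(2 ^ w : ℝ)) ^ 2) ^ 2 := by ring
      _ = 2 ^ w := by rw [hθ2, Real.sq_sqrt (by positivity)]
  have hs1 : (64 : ℝ) * u ≤ √(2 ^ w) := by
    apply Real.le_sqrt_of_sq_le
    exact_mod_cast huw
  have hfac : ∀ i ∈ J, 4 * √(((4 * u : ℕ) : ℝ) * W i) * √(√(2 ^ w)) ≤ (W i : ℝ) := by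
    intro i _
    have h2 : (2 : ℝ) ^ w ≤ W i := by exact_mod_cast hW i
    have hW0 : (0 : ℝ) ≤ W i := Nat.cast_nonneg _
    have h3 : 4 * √(((4 * u : ℕ) : ℝ) * W i) * √(√(2 ^ w)) =
        √(16 * (((4 * u : ℕ) : ℝ) * W i) * √(2 ^ w)) := by
      have e16 : √(16 : ℝ) = 4 := by
        rw [show (16 : ℝ) = 4 ^ 2 by norm_num]
        exact Real.sqrt_sq (by norm_num)
      rw [Real.sqrt_mul (x := 16 * (((4 * u : ℕ) : ℝ) * W i)) (by positivity) (√(2 ^ w)),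
        Real.sqrt_mul (x := 16) (by norm_num) (((4 * u : ℕ) : ℝ) * W i), e16]
    rw [h3, Real.sqrt_le_left hW0]
    have h4 : √(2 ^ w : ℝ) * √(2 ^ w) = 2 ^ w := Real.mul_self_sqrt (by positivity)
    have h5 : (64 : ℝ) * u * √(2 ^ w) ≤ √(2 ^ w) * √(2 ^ w) :=
      mul_le_mul_of_nonneg_right hs1 (Real.sqrt_nonneg _)
    have h6 : (64 : ℝ) * u * √(2 ^ w) ≤ W i := by linarith
    have h7 := mul_le_mul_of_nonneg_right h6 hW0
    push_cast
    nlinarith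
  have hfin : (((box A W).filter fun a =>
      |EE (List.ofFn fun i => x i ^ 2 * a i) k| * 2 ^ (1 + b * 4 ^ (4 * u)) < 1).card : ℝ) *
      2 ^ (w * u) ≤ ∏ i, (W i : ℝ) := by
    have h2 : (2 : ℝ) ^ (w * u) = ∏ _i ∈ J, √(√(2 ^ w : ℝ)) := by
      rw [Finset.prod_const, hJ, pow_mul, pow_mul, hθ4]
    calc (((box A W).filter fun a =>
          |EE (List.ofFn fun i => x i ^ 2 * a i) k| * 2 ^ (1 + b * 4 ^ (4 * u)) < 1).card : ℝ) *
            2 ^ (w * u)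
        ≤ ((∏ i ∈ Jᶜ, (W i : ℝ)) * ∏ i ∈ J, 4 * √(((4 * u : ℕ) : ℝ) * W i)) * 2 ^ (w * u) :=
          mul_le_mul_of_nonneg_right hcnt (by positivity)
      _ = (∏ i ∈ Jᶜ, (W i : ℝ)) * ∏ i ∈ J, (4 * √(((4 * u : ℕ) : ℝ) * W i) * √(√(2 ^ w))) := by
          rw [h2, mul_assoc, ← Finset.prod_mul_distrib]
      _ ≤ (∏ i ∈ Jᶜ, (W i : ℝ)) * ∏ i ∈ J, (W i : ℝ) :=
          mul_le_mul_of_nonneg_left
            (Finset.prod_le_prod (fun i _ => by positivity) hfac)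
            (Finset.prod_nonneg fun i _ => by positivity)
      _ = ∏ i, (W i : ℝ) := Finset.prod_compl_mul_prod J _
  exact_mod_cast hfin

end Pool.Agent.H97.SM
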