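import Pool.Agent.H97.SM.Det

/-!
# The square-root sum problem: random radicands, worst case instances over them
-/

set_option autoImplicit false

namespace Pool.Agent.H97.SM

open Pool.Agent.H92.SR Pool.Agent.H92.SR.Tr

theorem size_le {n r b : ℕ} {A W a : Fin n → ℕ} (ha : a ∈ box A W)
    (hb : ∀ i, A i + W i ≤ 2 ^ b) {p : List (Fin n × ℕ)} (hp : ∀ i, tm p i ≤ 2 ^ r) (k : ℕ) :
    bsz (p.map fun z => z.2 ^ 2 * a z.1) k ≤
      2 * (p.length + n + b + r + Nat.size k) ^ 2 + 2 * (p.length + n + b + r + Nat.size k) := by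
  have h1 : ((p.map fun z => z.2 ^ 2 * a z.1).map Nat.size).sum ≤ p.length * (2 * r + b + 1) := by
    have h2 := List.sum_le_card_nsmul ((p.map fun z => z.2 ^ 2 * a z.1).map Nat.size)
      (2 * r + b + 1) (by
      intro y hy
      rw [List.mem_map] at hy
      obtain ⟨v, hv, rfl⟩ := hy
      rw [List.mem_map] at hv
      obtain ⟨z, hz, rfl⟩ := hv
      apply Nat.size_le.2
      have h3 := Fintype.mem_piFinset.1 ha z.1
      rw [Finset.mem_Ioc] at h3
      have h4 := hb z.1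
      calc z.2 ^ 2 * a z.1 ≤ (2 ^ r) ^ 2 * 2 ^ b :=
            Nat.mul_le_mul (Nat.pow_le_pow_left ((le_tm hz).trans (hp z.1)) 2) (by omega)
        _ = 2 ^ (2 * r + b) := by rw [← pow_mul, ← pow_add]; congr 1; ring
        _ < 2 ^ (2 * r + b + 1) := Nat.pow_lt_pow_right (by norm_num) (by omega))
    rw [List.length_map, List.length_map, smul_eq_mul] at h2
    exact h2
  unfold bsz
  rw [List.length_map]
  obtain ⟨s, hs⟩ : ∃ s, s = p.length + n + b + r + Nat.size k := ⟨_, rfl⟩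
  rw [← hs]
  have h3 : p.length * (2 * r + b + 1) ≤ s * (2 * s + 1) := Nat.mul_le_mul (by omega) (by omega)
  have h4 : s * (2 * s + 1) = 2 * s ^ 2 + s := by ring
  omega

open Classical in
theorem semi : ∃ (c : Prog) (T : List ℕ → ℕ → ℕ) (q : Polynomial ℕ) (Λ : ℕ),
    (∀ (L : List ℕ) (k : ℕ),
      Eval c (encI L k) (bit (decide ((L.map fun a : ℕ => √(a : ℝ)).sum ≤ k))) (T L k)) ∧
    ∀ (n r b w u : ℕ) (A W : Fin n → ℕ), (256 * u) ^ 2 ≤ 2 ^ w → n * (r + 1) + b ≤ u * w →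
      (∀ i, 2 ^ w ≤ W i) → (∀ i, A i + W i ≤ 2 ^ b) →
      ((box A W).filter fun a => ∃ (p : List (Fin n × ℕ)) (k : ℕ), (∀ i, tm p i ≤ 2 ^ r) ∧
        q.eval (p.length + n + b + r + Nat.size k) * Λ ^ u <
          T (p.map fun z => z.2 ^ 2 * a z.1) k).card * 2 ^ (2 * u * w) ≤ ∏ i, W i := by
  obtain ⟨c0, T0, q0, hE0, hT0, hT0'⟩ := tim0
  have hev : ∀ s : ℕ, (q0.comp (2 * Polynomial.X ^ 2 + 3 * Polynomial.X + 2) *
      Polynomial.C (4 ^ q0.natDegree)).eval s =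
      q0.eval (2 * s ^ 2 + 3 * s + 2) * 4 ^ q0.natDegree := by
    intro s
    simp [Polynomial.eval_comp]
  have hmain : ∀ (n r b u : ℕ) (A W a : Fin n → ℕ), a ∈ box A W → (∀ i, A i + W i ≤ 2 ^ b) →
      ∀ p : List (Fin n × ℕ), (∀ i, tm p i ≤ 2 ^ r) → ∀ k : ℕ,
      (4 * u ≤ (Finset.univ.filter fun i => tm p i ≠ 0).card → k < 2 ^ (n + r + b) →
        1 ≤ |EE (List.ofFn fun i => tm p i ^ 2 * a i) k| *
          2 ^ (1 + (n + r + b + 1) * 4 ^ (4 * u))) →
      T0 (p.map fun z => z.2 ^ 2 * a z.1) k ≤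
        (q0.comp (2 * Polynomial.X ^ 2 + 3 * Polynomial.X + 2) *
          Polynomial.C (4 ^ q0.natDegree)).eval
          (p.length + n + b + r + Nat.size k) * (4 ^ (4 * q0.natDegree)) ^ u := by
    intro n r b u A W a ha hb p hp k hgood
    have h1 := det ha hb hp k hgood hT0 hT0'
    have h2 := size_le ha hb hp k
    rw [hev]
    obtain ⟨s, hs⟩ : ∃ s, s = p.length + n + b + r + Nat.size k := ⟨_, rfl⟩
    rw [← hs] at h2 ⊢
    have h4 : 1 ≤ 4 ^ (4 * u + 1) := Nat.one_le_pow _ _ (by norm_num)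
    have h5 : bsz (p.map fun z => z.2 ^ 2 * a z.1) k +
        (1 + (n + r + b + 1) * 4 ^ (4 * u + 1)) ≤ (2 * s ^ 2 + 3 * s + 2) * 4 ^ (4 * u + 1) := by
      have h6 : (n + r + b + 1) * 4 ^ (4 * u + 1) ≤ (s + 1) * 4 ^ (4 * u + 1) :=
        Nat.mul_le_mul_right _ (by omega)
      have h7 : (2 * s ^ 2 + 2 * s + 1) * 1 ≤ (2 * s ^ 2 + 2 * s + 1) * 4 ^ (4 * u + 1) :=
        Nat.mul_le_mul_left _ h4
      have h8 : (2 * s ^ 2 + 3 * s + 2) * 4 ^ (4 * u + 1) =
          (2 * s ^ 2 + 2 * s + 1) * 4 ^ (4 * u + 1) + (s + 1) * 4 ^ (4 * u + 1) := by ring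
      omega
    have h6 := h1.trans ((poly_mono q0 h5).trans (poly_scale q0 _ h4))
    have h7 : (4 ^ (4 * u + 1)) ^ q0.natDegree =
        4 ^ q0.natDegree * (4 ^ (4 * q0.natDegree)) ^ u := by
      rw [← pow_mul, ← pow_mul, ← pow_add]
      congr 1
      ring
    rw [h7, ← mul_assoc] at h6
    exact h6
  -- the bad lists of radicands
  have hsub : ∀ (n r b u : ℕ) (A W : Fin n → ℕ), (∀ i, A i + W i ≤ 2 ^ b) →
      ((box A W).filter fun a => ∃ (p : List (Fin n × ℕ)) (k : ℕ), (∀ i, tm p i ≤ 2 ^ r) ∧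
        (q0.comp (2 * Polynomial.X ^ 2 + 3 * Polynomial.X + 2) *
          Polynomial.C (4 ^ q0.natDegree)).eval
          (p.length + n + b + r + Nat.size k) * (4 ^ (4 * q0.natDegree)) ^ u <
          T0 (p.map fun z => z.2 ^ 2 * a z.1) k) ⊆
      ((box A W).filter fun a => ∃ x : Fin n → ℕ, (∀ i, x i ≤ 2 ^ r) ∧
        4 * u ≤ (Finset.univ.filter fun i => x i ≠ 0).card ∧ ∃ k < 2 ^ (n + r + b),
        |EE (List.ofFn fun i => x i ^ 2 * a i) k| *
          2 ^ (1 + (n + r + b + 1) * 4 ^ (4 * u)) < 1) := by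
    intro n r b u A W hb a ha
    rw [Finset.mem_filter] at ha ⊢
    obtain ⟨ha, p, k, hp, hlt⟩ := ha
    refine ⟨ha, ?_⟩
    by_contra hno
    refine absurd (hmain n r b u A W a ha hb p hp k fun h1 h2 => ?_) (not_le.2 hlt)
    by_contra h3
    exact hno ⟨tm p, hp, h1, k, h2, not_le.1 h3⟩
  refine ⟨c0, T0, q0.comp (2 * Polynomial.X ^ 2 + 3 * Polynomial.X + 2) *
    Polynomial.C (4 ^ q0.natDegree), (4 ^ (4 * q0.natDegree)) ^ 4, fun L k => ?_, ?_⟩
  · have e : decide ((L.map fun a : ℕ => √(a : ℝ)).sum ≤ k) = decide (EE L k ≤ 0) := by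
      apply decide_eq_decide.2
      unfold EE
      rw [sub_nonpos]
    rw [e]
    exact hE0 L k
  intro n r b w u A W huw hn hW hb
  rw [← pow_mul (4 ^ (4 * q0.natDegree)) 4 u]
  rcases Nat.eq_zero_or_pos u with h0 | hu
  · have h2 : 2 ^ (2 * u * w) = 1 := by rw [h0]; simp
    rw [h2, Nat.mul_one, ← card_box A W]
    exact Finset.card_filter_le _ _
  have huw' : (64 * (4 * u)) ^ 2 ≤ 2 ^ w := by
    rw [← mul_assoc]
    exact huw
  have h1 := (Nat.mul_le_mul_right (2 ^ (w * (4 * u)))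
    (Finset.card_le_card (hsub n r b (4 * u) A W hb))).trans (uni (by omega) huw' hW hb)
  by_cases hn4 : 1 ≤ n
  · have h2 : n * (r + 1) + (n + r + b) ≤ 2 * u * w := by
      have h3 : 1 * r ≤ n * r := Nat.mul_le_mul_right r hn4
      have h4 : n * (r + 1) = n * r + n := by ring
      have h5 : 2 * u * w = 2 * (u * w) := by ring
      omega
    have h3 : 2 ^ (n * (r + 1) + (n + r + b)) ≤ 2 ^ (2 * u * w) :=
      Nat.pow_le_pow_right (by norm_num) h2
    have h4 := h1.trans (Nat.mul_le_mul_right _ h3)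
    have h5 : 2 ^ (w * (4 * u)) = 2 ^ (2 * u * w) * 2 ^ (2 * u * w) := by
      rw [← pow_add]
      congr 1
      ring
    rw [h5] at h4
    refine Nat.le_of_mul_le_mul_left
      (?_ : 2 ^ (2 * u * w) * _ ≤ 2 ^ (2 * u * w) * _) (by positivity)
    refine le_trans (le_of_eq ?_) h4
    ring
  · have hn0 : n = 0 := by omega
    have h2 : ((box A W).filter fun a => ∃ x : Fin n → ℕ, (∀ i, x i ≤ 2 ^ r) ∧
        4 * (4 * u) ≤ (Finset.univ.filter fun i => x i ≠ 0).card ∧ ∃ k < 2 ^ (n + r + b),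
        |EE (List.ofFn fun i => x i ^ 2 * a i) k| *
          2 ^ (1 + (n + r + b + 1) * 4 ^ (4 * (4 * u))) < 1).card = 0 := by
      rw [Finset.card_eq_zero, Finset.filter_eq_empty_iff]
      rintro a - ⟨x, -, h1, -⟩
      have h2 := Finset.card_le_univ (Finset.univ.filter fun i : Fin n => x i ≠ 0)
      rw [Fintype.card_fin] at h2
      omega
    have h3 := Finset.card_le_card (hsub n r b (4 * u) A W hb)
    rw [h2] at h3
    rw [Nat.le_zero.1 h3, Nat.zero_mul]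
    exact Nat.zero_le _

end Pool.Agent.H97.SM
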