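import Pool.Agent.H97.SM.Fib


/-!
# All multipliers and all comparison numbers at once

The union bound over the multipliers `x i ≤ 2 ^ r` with at least `4 u` nonzero ones and over the comparison numbers
`k < 2 ^ (n + r + b)`.
-/

set_option autoImplicit false

namespace Pool.Agent.H97.SM

open Pool.Agent.H92.SR

theorem term_le {x V r b : ℕ} (hx : x ≤ 2 ^ r) (hV : V ≤ 2 ^ b) :
    √((x ^ 2 * V : ℕ) : ℝ) ≤ 2 ^ (r + b) := by
  rw [Real.sqrt_le_left (by positivity)]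
  have h1 : x ^ 2 * V ≤ (2 ^ (r + b)) ^ 2 := by
    calc x ^ 2 * V ≤ (2 ^ r) ^ 2 * 2 ^ b := Nat.mul_le_mul (Nat.pow_le_pow_left hx 2) hV
      _ ≤ (2 ^ r) ^ 2 * (2 ^ b) ^ 2 := by
          apply Nat.mul_le_mul_left
          exact Nat.le_self_pow (by norm_num) _
      _ = (2 ^ (r + b)) ^ 2 := by rw [pow_add, mul_pow]
  exact_mod_cast h1

theorem sum_le {n r b : ℕ} {x V : Fin n → ℕ} (hx : ∀ i, x i ≤ 2 ^ r) (hV : ∀ i, V i ≤ 2 ^ b) :
    ∑ i, √((x i ^ 2 * V i : ℕ) : ℝ) + 1 ≤ 2 ^ (n + r + b) := by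
  have h1 : ∑ i, √((x i ^ 2 * V i : ℕ) : ℝ) ≤ n * 2 ^ (r + b) := by
    refine (Finset.sum_le_sum fun i _ => term_le (hx i) (hV i)).trans (le_of_eq ?_)
    rw [Finset.sum_const, Finset.card_univ, Fintype.card_fin, nsmul_eq_mul]
  have h2 : (n : ℝ) + 1 ≤ 2 ^ n := by
    exact_mod_cast (Nat.lt_two_pow_self (n := n))
  have h3 : (1 : ℝ) ≤ 2 ^ (r + b) := one_le_pow₀ (by norm_num)
  have h4 : (2 : ℝ) ^ (n + r + b) = 2 ^ n * 2 ^ (r + b) := by
    rw [add_assoc, pow_add]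
  rw [h4]
  have h5 := mul_le_mul_of_nonneg_right h2 (by positivity : (0 : ℝ) ≤ 2 ^ (r + b))
  linarith

open Classical in
theorem uni {n r b w u : ℕ} {A W : Fin n → ℕ} (hu : 1 ≤ u) (huw : (64 * u) ^ 2 ≤ 2 ^ w)
    (hW : ∀ i, 2 ^ w ≤ W i) (hb : ∀ i, A i + W i ≤ 2 ^ b) :
    ((box A W).filter fun a => ∃ x : Fin n → ℕ, (∀ i, x i ≤ 2 ^ r) ∧
      4 * u ≤ (Finset.univ.filter fun i => x i ≠ 0).card ∧ ∃ k < 2 ^ (n + r + b),
      |EE (List.ofFn fun i => x i ^ 2 * a i) k| * 2 ^ (1 + (n + r + b + 1) * 4 ^ (4 * u)) < 1).card *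
      2 ^ (w * u) ≤ 2 ^ (n * (r + 1) + (n + r + b)) * ∏ i, W i := by
  obtain ⟨X, hX⟩ : ∃ X, X = (Fintype.piFinset fun _ : Fin n => Finset.range (2 ^ r + 1)).filter
      fun x => 4 * u ≤ (Finset.univ.filter fun i => x i ≠ 0).card := ⟨_, rfl⟩
  obtain ⟨bad, hbad⟩ : ∃ bad : (Fin n → ℕ) × ℕ → Finset (Fin n → ℕ), bad = fun p =>
      (box A W).filter fun a => |EE (List.ofFn fun i => p.1 i ^ 2 * a i) p.2| *
        2 ^ (1 + (n + r + b + 1) * 4 ^ (4 * u)) < 1 := ⟨_, rfl⟩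
  obtain ⟨B, hB⟩ : ∃ B, B = (box A W).filter fun a => ∃ x : Fin n → ℕ, (∀ i, x i ≤ 2 ^ r) ∧
      4 * u ≤ (Finset.univ.filter fun i => x i ≠ 0).card ∧ ∃ k < 2 ^ (n + r + b),
      |EE (List.ofFn fun i => x i ^ 2 * a i) k| *
        2 ^ (1 + (n + r + b + 1) * 4 ^ (4 * u)) < 1 := ⟨_, rfl⟩
  rw [← hB]
  have hsub : B ⊆ (X ×ˢ Finset.range (2 ^ (n + r + b))).biUnion bad := by
    intro a ha
    rw [hB, Finset.mem_filter] at ha
    obtain ⟨h1, x, hx, hc, k, hk, h2⟩ := ha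
    rw [Finset.mem_biUnion]
    refine ⟨(x, k), ?_, ?_⟩
    · rw [Finset.mem_product, hX, Finset.mem_filter, Fintype.mem_piFinset]
      refine ⟨⟨fun i => ?_, hc⟩, Finset.mem_range.2 hk⟩
      rw [Finset.mem_range]
      exact Nat.lt_succ_of_le (hx i)
    · rw [hbad, Finset.mem_filter]
      exact ⟨h1, h2⟩
  have hone : ∀ p ∈ X ×ˢ Finset.range (2 ^ (n + r + b)),
      (bad p).card * 2 ^ (w * u) ≤ ∏ i, W i := by
    intro p hp
    rw [Finset.mem_product, hX, Finset.mem_filter, Fintype.mem_piFinset] at hp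
    obtain ⟨⟨hx, hc⟩, -⟩ := hp
    obtain ⟨J, hJs, hJ⟩ := Finset.exists_subset_card_eq hc
    have hx' : ∀ i, p.1 i ≤ 2 ^ r := fun i => Nat.lt_succ_iff.1 (Finset.mem_range.1 (hx i))
    have hs := sum_le hx' hb
    rw [hbad]
    refine sprob (x := p.1) hJ hu huw (fun i hi => ?_) hW p.2 ?_
    · have h1 := hJs hi
      rw [Finset.mem_filter] at h1
      exact Nat.pos_of_ne_zero h1.2
    · rw [← Finset.mul_sum, pow_succ]
      linarith
  have hX1 : X.card ≤ 2 ^ (n * (r + 1)) := by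
    rw [hX]
    refine (Finset.card_filter_le _ _).trans ?_
    rw [Fintype.card_piFinset]
    simp only [Finset.card_range, Finset.prod_const, Finset.card_univ, Fintype.card_fin]
    rw [mul_comm n, pow_mul]
    apply Nat.pow_le_pow_left
    rw [pow_succ]
    have : 0 < 2 ^ r := by positivity
    omega
  calc B.card * 2 ^ (w * u)
      ≤ (∑ p ∈ X ×ˢ Finset.range (2 ^ (n + r + b)), (bad p).card) * 2 ^ (w * u) :=
        Nat.mul_le_mul_right _ ((Finset.card_le_card hsub).trans Finset.card_biUnion_le)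
    _ = ∑ p ∈ X ×ˢ Finset.range (2 ^ (n + r + b)), (bad p).card * 2 ^ (w * u) := by
        rw [Finset.sum_mul]
    _ ≤ ∑ _p ∈ X ×ˢ Finset.range (2 ^ (n + r + b)), ∏ i, W i := Finset.sum_le_sum hone
    _ = (X.card * 2 ^ (n + r + b)) * ∏ i, W i := by
        rw [Finset.sum_const, Finset.card_product, Finset.card_range, smul_eq_mul]
    _ ≤ 2 ^ (n * (r + 1) + (n + r + b)) * ∏ i, W i := by
        apply Nat.mul_le_mul_right
        rw [pow_add 2 (n * (r + 1)) (n + r + b)]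
        exact Nat.mul_le_mul_right _ hX1

end Pool.Agent.H97.SM
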